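import Mathlib

/-!
# `φ(k² + 1) = k φ(k + 1)` when `k² + 1` has at most two prime factors

Outline.  If `k² + 1` is prime, then `φ(k + 1) = k` and `k + 1` is prime.  Let `k² + 1 = p q` with
primes `p ≤ q`, and `φ(k + 1) = k - j`.  Then `p + q = j k + 2`, so `(p - 1)² = k w` with
`w = p j - k`.  Here `w ≥ 2`, since `w = 1` would give `p ∣ 2`.  With `s = p - 1` and the least prime
factor `r ≤ √(k+1)` of the composite number `k + 1`, the bound `φ(k+1) ≤ (k+1) - (k+1)/r` gives
`(s+1)² (k+1) ≤ (k + w + s + 1)²`, which fails for `k ≥ 25`; the smaller `k` are checked directly.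
-/

set_option autoImplicit false

namespace Pool.Agent.Results.MP_9310ca_nt.TwoPrimeFactors

open Finset

/-- the set of the problem -/
def S : Set ℕ := {k | Nat.totient (k ^ 2 + 1) = k * Nat.totient (k + 1)}

/-- multiples of a divisor are not coprime to `N` -/
theorem totient_add_le {r M : ℕ} (hr : 2 ≤ r) :
    Nat.totient (r * M) + M ≤ r * M := by
  classical
  rw [Nat.totient_eq_card_coprime]
  have hinj : Set.InjOn (fun i : ℕ => r * i) (range M : Set ℕ) := by
    intro i _ j _ h
    exact Nat.eq_of_mul_eq_mul_left (by omega) h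
  have hcard : ((range M).image (fun i : ℕ => r * i)).card = M := by
    rw [card_image_of_injOn hinj, card_range]
  have hdisj : Disjoint ((range (r * M)).filter (Nat.Coprime (r * M)))
      ((range M).image (fun i : ℕ => r * i)) := by
    rw [Finset.disjoint_left]
    intro x hx hx2
    rw [mem_filter] at hx
    rw [mem_image] at hx2
    obtain ⟨i, -, rfl⟩ := hx2
    have h1 : r ∣ Nat.gcd (r * M) (r * i) := Nat.dvd_gcd (dvd_mul_right _ _) (dvd_mul_right _ _)
    rw [Nat.Coprime] at hx
    rw [hx.2] at h1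
    have := Nat.le_of_dvd (by norm_num) h1
    omega
  have hsub : ((range (r * M)).filter (Nat.Coprime (r * M))) ∪
      ((range M).image (fun i : ℕ => r * i)) ⊆ range (r * M) := by
    intro x hx
    rw [mem_union] at hx
    rcases hx with hx | hx
    · exact (mem_filter.1 hx).1
    · rw [mem_image] at hx
      obtain ⟨i, hi, rfl⟩ := hx
      rw [mem_range] at hi ⊢
      exact Nat.mul_lt_mul_of_pos_left hi (by omega)
  have h := card_le_card hsub
  rw [card_union_of_disjoint hdisj, hcard, card_range] at h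
  exact h

theorem small : ∀ k < 25, Nat.totient (k ^ 2 + 1) = k * Nat.totient (k + 1) →
    ¬ (k + 1).Prime → k = 8 := by
  decide +kernel

/-- the inequality -/
theorem ineq {k s w : ℤ} (hk : 25 ≤ k) (hs : s ≤ k - 1) (hs0 : 0 ≤ s) (hw : 2 ≤ w)
    (hsw : s * s = k * w) (h : (s + 1) * (s + 1) * (k + 1) ≤ (k + w + s + 1) * (k + w + s + 1)) :
    False := by
  have h1 : 2 * k ≤ s * s := by nlinarith
  have h2 : 8 ≤ s := by
    by_contra hcon
    have : s * s ≤ 7 * 7 := mul_self_le_mul_self hs0 (by omega)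
    omega
  have h3 : w ≤ s := by
    have h4 : k * w ≤ k * s := by
      rw [← hsw]
      exact mul_le_mul_of_nonneg_right (by omega) hs0
    exact le_of_mul_le_mul_left h4 (by omega)
  have h5 : (k + w + s + 1) * (k + w + s + 1) ≤ (k + 2 * s + 1) * (k + 2 * s + 1) :=
    mul_self_le_mul_self (by omega) (by omega)
  have h6 : (s + 1) * (s + 1) * (k + 1) ≤ (k + 2 * s + 1) * (k + 2 * s + 1) := h.trans h5
  have h7 : (k + 1) * (s * s - 2 * s - k) ≤ 4 * (s * s) := by linarith
  have h8 : (k + 1) * (s * s - 4 * s) ≤ (k + 1) * (2 * (s * s - 2 * s - k)) :=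
    mul_le_mul_of_nonneg_left (by omega) (by omega)
  have h9 : (k + 1) * (s * s - 4 * s) ≤ 8 * (s * s) := by linarith
  have h10 : s * ((k + 1) * (s - 4)) ≤ s * (8 * s) := by linarith
  have h11 : (k + 1) * (s - 4) ≤ 8 * s := le_of_mul_le_mul_left h10 (by omega)
  have h12 : 26 * (s - 4) ≤ (k + 1) * (s - 4) := mul_le_mul_of_nonneg_right (by omega) (by omega)
  omega

theorem two_primes {k p q : ℕ} (hp : p.Prime) (hq : q.Prime) (hpq : p ≤ q)
    (h : k ^ 2 + 1 = p * q) (hS : Nat.totient (k ^ 2 + 1) = k * Nat.totient (k + 1)) : k = 8 := by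
  have hp2 := hp.two_le
  have hq2 := hq.two_le
  have hk1 : 2 ≤ k := by
    by_contra hcon
    have : k = 0 ∨ k = 1 := by omega
    rcases this with h0 | h0
    · subst h0; nlinarith
    · subst h0; nlinarith
  have hne : p ≠ q := by
    rintro rfl
    have h1 : k < p := by nlinarith
    have h2 : k + 1 ≤ p := h1
    nlinarith
  have hcop : Nat.Coprime p q := (Nat.coprime_primes hp hq).2 hne
  have htot : Nat.totient (k ^ 2 + 1) = (p - 1) * (q - 1) := by
    rw [h, Nat.totient_mul hcop, Nat.totient_prime hp, Nat.totient_prime hq]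
  rw [htot] at hS
  -- `k + 1` is composite
  have hcomp : ¬ (k + 1).Prime := by
    intro hpr
    rw [Nat.totient_prime hpr, Nat.add_sub_cancel] at hS
    obtain ⟨x, rfl⟩ : ∃ x, p = x + 1 := ⟨p - 1, by omega⟩
    obtain ⟨y, rfl⟩ : ∃ y, q = y + 1 := ⟨q - 1, by omega⟩
    rw [Nat.add_sub_cancel, Nat.add_sub_cancel] at hS
    nlinarith
  rcases lt_or_ge k 25 with hlt | hge
  · exact small k hlt (by rw [htot]; exact hS) hcomp
  exfalso
  obtain ⟨r, hr⟩ : ∃ r, r = (k + 1).minFac := ⟨_, rfl⟩
  have hrp : r.Prime := by rw [hr]; exact Nat.minFac_prime (by omega)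
  have hrd : r ∣ k + 1 := by rw [hr]; exact Nat.minFac_dvd _
  have hrr : r * r ≤ k + 1 := by
    have := Nat.minFac_sq_le_self (n := k + 1) (by omega) hcomp
    rw [← hr, pow_two] at this
    exact this
  obtain ⟨M, hM⟩ := hrd
  have hM1 : 1 ≤ M := by
    rcases Nat.eq_zero_or_pos M with h0 | h0
    · subst h0; omega
    · exact h0
  have htl := totient_add_le (M := M) hrp.two_le
  rw [← hM] at htl
  -- integers
  obtain ⟨t, ht⟩ : ∃ t, t = Nat.totient (k + 1) := ⟨_, rfl⟩
  rw [← ht] at hS htl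
  obtain ⟨s, hs⟩ : ∃ s, p = s + 1 := ⟨p - 1, by omega⟩
  obtain ⟨y, hy⟩ : ∃ y, q = y + 1 := ⟨q - 1, by omega⟩
  subst hs
  subst hy
  rw [Nat.add_sub_cancel, Nat.add_sub_cancel] at hS
  have zh : (k : ℤ) * k + 1 = (s + 1) * (y + 1) := by
    have : k * k + 1 = (s + 1) * (y + 1) := by rw [← h]; ring
    exact_mod_cast this
  have zS : (s : ℤ) * y = k * t := by exact_mod_cast hS
  have zM : (k : ℤ) + 1 = r * M := by exact_mod_cast hM
  have zt : (t : ℤ) + M ≤ k + 1 := by exact_mod_cast htl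
  have zr : (r : ℤ) * r ≤ k + 1 := by exact_mod_cast hrr
  have zsy : (s : ℤ) + 1 ≤ y := by
    have : s + 1 ≤ y := by omega
    exact_mod_cast this
  have zk : (25 : ℤ) ≤ k := by exact_mod_cast hge
  have zs : (1 : ℤ) ≤ s := by
    have : 1 ≤ s := by omega
    exact_mod_cast this
  have zr2 : (2 : ℤ) ≤ r := by exact_mod_cast hrp.two_le
  have zM1 : (1 : ℤ) ≤ M := by exact_mod_cast hM1
  clear h hS hcop htot hcomp hr hrp hM htl hrr
  generalize (k : ℤ) = K at *
  generalize (s : ℤ) = s' at *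
  generalize (y : ℤ) = y' at *
  generalize (t : ℤ) = t' at *
  generalize (r : ℤ) = r' at *
  generalize (M : ℤ) = M' at *
  -- `j = K - t'`, `s' + y' = j K`
  obtain ⟨j, hj⟩ : ∃ j : ℤ, j = K - t' := ⟨_, rfl⟩
  have ht' : t' = K - j := by omega
  subst ht'
  have hsum : s' + y' = j * K := by linarith
  have hy' : y' = j * K - s' := by omega
  subst hy'
  obtain ⟨w, hw⟩ : ∃ w : ℤ, w = (s' + 1) * j - K := ⟨_, rfl⟩
  have hsw : s' * s' = K * w := by rw [hw]; linarith
  -- `s' ≤ K - 1`
  have hsK : s' ≤ K - 1 := by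
    by_contra hcon
    have h1 : K ≤ s' := by omega
    have h2 : (K + 1) * (K + 1) ≤ (s' + 1) * (j * K - s' + 1) := by
      have h3 : (K + 1) * (K + 1) ≤ (s' + 1) * (s' + 1) := mul_self_le_mul_self (by omega) (by omega)
      have h4 : (s' + 1) * (s' + 1) ≤ (s' + 1) * (j * K - s' + 1) :=
        mul_le_mul_of_nonneg_left (by omega) (by omega)
      exact h3.trans h4
    linarith
  have hw1 : 1 ≤ w := by
    by_contra hcon
    have h1 : K * w ≤ 0 := mul_nonpos_of_nonneg_of_nonpos (by omega) (by omega)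
    have h2 : 1 * 1 ≤ s' * s' := mul_self_le_mul_self (by omega) zs
    omega
  have hw2 : 2 ≤ w := by
    by_contra hcon
    have h1 : w = 1 := by omega
    rw [h1, mul_one] at hsw
    -- `K = s'^2`, `p ∣ 2`
    have h2 : (s' + 1) ∣ 2 := by
      refine ⟨(j * K - s' + 1) - (s' - 1) * (s' * s' + 1), ?_⟩
      have h3 : (s' + 1) * ((j * K - s' + 1) - (s' - 1) * (s' * s' + 1)) =
          (s' + 1) * (j * K - s' + 1) - (s' * s') * (s' * s') + 1 := by ring
      rw [h3, ← zh, hsw]; ring
    have h3 := Int.le_of_dvd (by norm_num) h2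
    have h4 : s' = 1 := by omega
    rw [h4] at hsw
    omega
  -- the bound from the least prime factor
  have h1 : M' ≤ j + 1 := by omega
  have h2 : (s' + 1) * (K + 1) ≤ r' * (K + w + s' + 1) := by
    have h3 : (s' + 1) * M' ≤ (s' + 1) * (j + 1) := mul_le_mul_of_nonneg_left h1 (by omega)
    have h4 : (s' + 1) * (j + 1) = K + w + s' + 1 := by rw [hw]; ring
    rw [h4] at h3
    have h5 : r' * ((s' + 1) * M') ≤ r' * (K + w + s' + 1) := mul_le_mul_of_nonneg_left h3 (by omega)
    rw [zM]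
    linarith
  have h3 : ((s' + 1) * (K + 1)) * ((s' + 1) * (K + 1)) ≤
      (r' * (K + w + s' + 1)) * (r' * (K + w + s' + 1)) :=
    mul_self_le_mul_self (mul_nonneg (by omega) (by omega)) h2
  have h4 : (r' * r') * ((K + w + s' + 1) * (K + w + s' + 1)) ≤
      (K + 1) * ((K + w + s' + 1) * (K + w + s' + 1)) :=
    mul_le_mul_of_nonneg_right zr (mul_self_nonneg _)
  have h5 : (K + 1) * ((s' + 1) * (s' + 1) * (K + 1)) ≤
      (K + 1) * ((K + w + s' + 1) * (K + w + s' + 1)) := by linarith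
  have h6 := le_of_mul_le_mul_left h5 (by omega)
  exact ineq zk hsK (by omega) hw2 hsw h6

/-- Let `k` satisfy `φ(k²+1) = k φ(k+1)`.
(1) `k² + 1` is prime if and only if `k + 1` is prime.
(2) If `k² + 1` is a product of two primes, then `k = 8`.
(3) So if `k ≠ 8` and `k² + 1` has at most two prime factors, counted with multiplicity, then `k + 1`
is prime. -/
theorem result :
    (∀ k ∈ S, ((k ^ 2 + 1).Prime ↔ (k + 1).Prime)) ∧
    (∀ k ∈ S, ∀ p q : ℕ, p.Prime → q.Prime → k ^ 2 + 1 = p * q → k = 8) ∧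
    (∀ k ∈ S, k ≠ 8 → (k ^ 2 + 1).primeFactorsList.length ≤ 2 → (k + 1).Prime) := by
  have h0 : ∀ k ∈ S, k ≠ 0 := by
    rintro k hk rfl
    simp [S] at hk
  have h1 : ∀ k ∈ S, ((k ^ 2 + 1).Prime ↔ (k + 1).Prime) := by
    intro k hk
    have hk0 := h0 k hk
    have hk' : Nat.totient (k ^ 2 + 1) = k * Nat.totient (k + 1) := hk
    constructor
    · intro h
      rw [Nat.totient_prime h, Nat.add_sub_cancel, pow_two] at hk'
      have h2 : Nat.totient (k + 1) = k + 1 - 1 := by
        have := Nat.eq_of_mul_eq_mul_left (Nat.pos_of_ne_zero hk0) hk'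
        omega
      exact (Nat.totient_eq_iff_prime (by omega)).1 h2
    · intro h
      rw [Nat.totient_prime h, Nat.add_sub_cancel] at hk'
      have h2 : Nat.totient (k ^ 2 + 1) = k ^ 2 + 1 - 1 := by
        rw [hk', Nat.add_sub_cancel, pow_two]
      exact (Nat.totient_eq_iff_prime (by positivity)).1 h2
  have h2 : ∀ k ∈ S, ∀ p q : ℕ, p.Prime → q.Prime → k ^ 2 + 1 = p * q → k = 8 := by
    intro k hk p q hp hq h
    rcases le_total p q with hle | hle
    · exact two_primes hp hq hle h hk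
    · exact two_primes hq hp hle (by rw [h]; ring) hk
  refine ⟨h1, h2, ?_⟩
  intro k hk hk8 hlen
  have hk0 := h0 k hk
  have hprod := Nat.prod_primeFactorsList (n := k ^ 2 + 1) (by omega)
  have hpr : ∀ x ∈ (k ^ 2 + 1).primeFactorsList, x.Prime := fun x hx =>
    Nat.prime_of_mem_primeFactorsList hx
  rcases hL : (k ^ 2 + 1).primeFactorsList with _ | ⟨x, _ | ⟨y, _ | ⟨z, L⟩⟩⟩
  · rw [hL] at hprod
    simp at hprod
    exact absurd hprod hk0
  · rw [hL] at hprod hpr
    simp at hprod
    have := hpr x (by simp)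
    rw [hprod] at this
    exact (h1 k hk).1 this
  · rw [hL] at hprod hpr
    simp at hprod
    exact absurd (h2 k hk x y (hpr x (by simp)) (hpr y (by simp)) hprod.symm) hk8
  · rw [hL] at hlen
    simp at hlen

end Pool.Agent.Results.MP_9310ca_nt.TwoPrimeFactors
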